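import Pool.Agent.R294.Plastic3

/-!
# Dense analytic subgroups of the line are never plastic
-/

set_option autoImplicit false

namespace Pool.Agent.Results.MP_4fc6a2_gt.NoPlasticAnalytic

open Set MeasureTheory

/-- A metric space is plastic if every non-expansive bijection of it is an isometry. -/
def IsPlastic (X : Type*) [MetricSpace X] : Prop :=
  ∀ f : X → X, Function.Bijective f → (∀ x y, dist (f x) (f y) ≤ dist x y) →
    ∀ x y, dist (f x) (f y) = dist x y

/-- **Negative answers to Q2 and Q1.** No dense analytic subgroup of the real line is plastic, so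
the real line is a separable normed space without dense analytic plastic subgroups. -/
theorem result :
    (∀ H : AddSubgroup ℝ, Dense (H : Set ℝ) → AnalyticSet (H : Set ℝ) → ¬ IsPlastic H) ∧
    ∃ (E : Type) (_ : NormedAddCommGroup E) (_ : NormedSpace ℝ E),
      TopologicalSpace.SeparableSpace E ∧
      ¬ ∃ H : AddSubgroup E, Dense (H : Set E) ∧ AnalyticSet (H : Set E) ∧ IsPlastic H := by
  have key : ∀ H : AddSubgroup ℝ, Dense (H : Set ℝ) → AnalyticSet (H : Set ℝ) →
      ¬ IsPlastic H := by
    intro H hd hs hp
    obtain ⟨f, hf, hle, x, y, hne⟩ := Pool.Agent.R294.Plastic.analytic_not_plastic hd hs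
    exact hne (hp f hf hle x y)
  refine ⟨key, ℝ, inferInstance, inferInstance, inferInstance, ?_⟩
  rintro ⟨H, hd, hs, hp⟩
  exact key H hd hs hp

end Pool.Agent.Results.MP_4fc6a2_gt.NoPlasticAnalytic
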